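import Pool.Agent.Helper96.MX.Trans
import Pool.Agent.Helper95.MX.MainOf

set_option autoImplicit false

/-!
# The transfer inequality and the main bounds
-/

namespace Pool.Agent.Helper21.MX

/-- The transfer inequality. -/
theorem transB : TransB := by
  intro m n k b U M N d a D W R K c _ t1 s κ B s0 L Y Q H Λ h hm hb hd hs hK hN hM hMf hNf hL hLB
    hY hYs hM1 hH hΛ hQ hQ1 hQs h4 hLe hQe hLQ hQn A hA hAK
  exact transferM h hm hb hd hs hK hN hM hMf hNf hL hLB hY hYs (hM1.trans hY) hH hΛ hQ hQ1 hQs h4
    hLe hQe hLQ hQn A hA hAK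

/-- The main bound. -/
theorem mainB : MainB := mainB_of transB

/-- The trivial bound. -/
theorem trivB : TrivB := trivB_of transB

end Pool.Agent.Helper21.MX
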