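import Pool.Agent.Helper21.MX.Defs

/-!
# Project MIX, piece (C): random vectors have no short integer relation
-/

set_option autoImplicit false

namespace Pool.Agent.Helper21.MX

open Finset
open Pool.Agent.Helper22.ETModel Pool.Agent.Helper22.TSModel Pool.Agent.Helper22.EP
open Pool.Agent.Helper23.SP (pre sg Om g put supp Free)
open Pool.Agent.Helper8.PQ

section relations

variable {Z ι : Type} [Fintype Z] [Fintype ι] [DecidableEq ι]

/-- One relation holds with probability at most `1 / P`. -/
theorem one_rel {P : ℕ} (x : Z → ι → Fin P) (upd : ι → Z → Fin P → Z)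
    (h1 : ∀ i z v, x (upd i z v) = Function.update (x z) i v)
    (h2 : ∀ i z z' v v', upd i z v = upd i z' v' → x z i = x z' i → z = z')
    (γ : ι → ℤ) (hγ : γ ≠ 0) :
    (univ.filter fun z : Z => ∑ i, γ i * ((x z i : ℕ) : ℤ) = 0).card * P ≤ Fintype.card Z := by
  classical
  obtain ⟨i0, hi0⟩ : ∃ i, γ i ≠ 0 := by
    by_contra hcon
    push Not at hcon
    exact hγ (funext hcon)
  have key := Finset.card_le_card_of_injOn
    (s := (univ.filter fun z : Z => ∑ i, γ i * ((x z i : ℕ) : ℤ) = 0) ×ˢ
      (univ : Finset (Fin P))) (t := (univ : Finset Z))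
    (fun q => upd i0 q.1 q.2) (fun q _ => mem_coe.2 (mem_univ _)) ?_
  · rw [card_product, card_univ, card_univ, Fintype.card_fin] at key
    exact key
  · rintro ⟨z, v⟩ hz ⟨z', v'⟩ hz' he
    simp only [coe_product, Set.mem_prod, mem_coe, mem_filter, mem_univ, true_and, and_true]
      at hz hz'
    simp only at he
    have hx : Function.update (x z) i0 v = Function.update (x z') i0 v' := by
      rw [← h1, ← h1, he]
    have hv : v = v' := by
      have := congrFun hx i0
      simpa using this
    have hj : ∀ j, j ≠ i0 → x z j = x z' j := by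
      intro j hj
      have := congrFun hx j
      simpa [Function.update_of_ne hj] using this
    have hi : x z i0 = x z' i0 := by
      have e1 := Finset.add_sum_erase univ (fun i => γ i * ((x z i : ℕ) : ℤ)) (mem_univ i0)
      have e2 := Finset.add_sum_erase univ (fun i => γ i * ((x z' i : ℕ) : ℤ)) (mem_univ i0)
      have e3 : ∑ i ∈ univ.erase i0, γ i * ((x z i : ℕ) : ℤ) =
          ∑ i ∈ univ.erase i0, γ i * ((x z' i : ℕ) : ℤ) := by
        refine sum_congr rfl fun i hi => ?_
        rw [hj i (ne_of_mem_erase hi)]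
      have e4 : γ i0 * ((x z i0 : ℕ) : ℤ) = γ i0 * ((x z' i0 : ℕ) : ℤ) := by
        linarith
      have e5 : ((x z i0 : ℕ) : ℤ) = ((x z' i0 : ℕ) : ℤ) := mul_left_cancel₀ hi0 e4
      exact Fin.ext (by exact_mod_cast e5)
    rw [h2 i0 z z' v v' he hi, hv]

/-- The coefficient vector with a given list of terms. -/
noncomputable def dcd (s c : ℕ) (φ : Fin s → ι × Fin (2 * c + 1)) (i : ι) : ℤ :=
  if h : ∃ j, (φ j).1 = i then (((φ (Classical.choose h)).2 : ℕ) : ℤ) - c else 0

omit [Fintype Z] in
/-- Every short vector of coefficients is given by a list of terms. -/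
theorem exists_dcd {s c : ℕ} (γ : ι → ℤ) (hs : (supp γ).card ≤ s) (hc : ∀ i, |γ i| ≤ c)
    (h0 : γ ≠ 0) : ∃ φ : Fin s → ι × Fin (2 * c + 1), dcd s c φ = γ := by
  classical
  obtain ⟨i0, hi0⟩ : ∃ i, γ i ≠ 0 := by
    by_contra hcon
    push Not at hcon
    exact h0 (funext hcon)
  let eq := (supp γ).equivFin
  let f : Fin s → ι := fun j => if h : j.val < (supp γ).card then (eq.symm ⟨j.val, h⟩).1 else i0
  have hf : ∀ i, γ i ≠ 0 → ∃ j, f j = i := by
    intro i hi
    have hm : i ∈ supp γ := by simp [supp, hi]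
    refine ⟨⟨(eq ⟨i, hm⟩).val, lt_of_lt_of_le (eq ⟨i, hm⟩).2 hs⟩, ?_⟩
    simp only [f]
    rw [dif_pos (eq ⟨i, hm⟩).2]
    simp
  have hb : ∀ i, 0 ≤ γ i + c ∧ γ i + c ≤ 2 * c := by
    intro i
    have := abs_le.1 (hc i)
    constructor <;> linarith [this.1, this.2]
  refine ⟨fun j => (f j, ⟨(γ (f j) + c).toNat, by
    have := hb (f j)
    omega⟩), ?_⟩
  funext i
  unfold dcd
  by_cases h : ∃ j, f j = i
  · have h' : ∃ j, ((fun j => ((f j, (⟨(γ (f j) + c).toNat, by
        have := hb (f j)
        omega⟩ : Fin (2 * c + 1))) : ι × Fin (2 * c + 1))) j).1 = i := h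
    rw [dif_pos h']
    have hj := Classical.choose_spec h'
    simp only at hj ⊢
    rw [hj, Int.toNat_of_nonneg (hb i).1]
    ring
  · have h' : ¬ ∃ j, ((fun j => ((f j, (⟨(γ (f j) + c).toNat, by
        have := hb (f j)
        omega⟩ : Fin (2 * c + 1))) : ι × Fin (2 * c + 1))) j).1 = i := h
    rw [dif_neg h']
    by_contra hne
    exact h (hf i (fun h3 => hne h3.symm))

open Classical in
/-- A random vector has a short relation with small probability: general form. -/
theorem rel_abs (s c P : ℕ) (x : Z → ι → Fin P) (upd : ι → Z → Fin P → Z)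
    (h1 : ∀ i z v, x (upd i z v) = Function.update (x z) i v)
    (h2 : ∀ i z z' v v', upd i z v = upd i z' v' → x z i = x z' i → z = z') :
    (univ.filter fun z : Z => ∃ γ : ι → ℤ, (supp γ).card ≤ s ∧ (∀ i, |γ i| ≤ c) ∧ γ ≠ 0 ∧
      ∑ i, γ i * ((x z i : ℕ) : ℤ) = 0).card * P ≤
      (Fintype.card ι * (2 * c + 1)) ^ s * Fintype.card Z := by
  have hsub : (univ.filter fun z : Z => ∃ γ : ι → ℤ, (supp γ).card ≤ s ∧ (∀ i, |γ i| ≤ c) ∧
      γ ≠ 0 ∧ ∑ i, γ i * ((x z i : ℕ) : ℤ) = 0) ⊆
      (univ : Finset (Fin s → ι × Fin (2 * c + 1))).biUnion fun φ =>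
        if dcd s c φ ≠ 0 then
          univ.filter fun z : Z => ∑ i, dcd s c φ i * ((x z i : ℕ) : ℤ) = 0
        else ∅ := by
    intro z hz
    obtain ⟨γ, hs, hc, h0, hr⟩ := (mem_filter.1 hz).2
    obtain ⟨φ, hφ⟩ := exists_dcd γ hs hc h0
    rw [mem_biUnion]
    refine ⟨φ, mem_univ _, ?_⟩
    rw [hφ, if_pos h0]
    exact mem_filter.2 ⟨mem_univ _, hr⟩
  have hle := (card_le_card hsub).trans card_biUnion_le
  calc _ ≤ (∑ φ : Fin s → ι × Fin (2 * c + 1), (if dcd s c φ ≠ 0 then
          univ.filter fun z : Z => ∑ i, dcd s c φ i * ((x z i : ℕ) : ℤ) = 0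
        else ∅ : Finset Z).card) * P := Nat.mul_le_mul_right _ hle
    _ = ∑ φ : Fin s → ι × Fin (2 * c + 1), (if dcd s c φ ≠ 0 then
          univ.filter fun z : Z => ∑ i, dcd s c φ i * ((x z i : ℕ) : ℤ) = 0
        else ∅ : Finset Z).card * P := by rw [sum_mul]
    _ ≤ ∑ φ : Fin s → ι × Fin (2 * c + 1), Fintype.card Z := by
        refine sum_le_sum fun φ _ => ?_
        by_cases h : dcd s c φ ≠ 0
        · rw [if_pos h]
          exact one_rel x upd h1 h2 _ h
        · rw [if_neg h]
          simp
    _ = _ := by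
        rw [sum_const, card_univ, smul_eq_mul]
        simp

end relations

open Classical in
/-- A random vector has a short relation with small probability. -/
theorem rel_card {ι : Type} [Fintype ι] [DecidableEq ι] (s c P : ℕ) :
    (univ.filter fun x : ι → Fin P => ∃ γ : ι → ℤ, (supp γ).card ≤ s ∧ (∀ i, |γ i| ≤ c) ∧
      γ ≠ 0 ∧ ∑ i, γ i * ((x i : ℕ) : ℤ) = 0).card * P ≤
      (Fintype.card ι * (2 * c + 1)) ^ s * Fintype.card (ι → Fin P) := by
  refine (le_of_eq ?_).trans (rel_abs (Z := ι → Fin P) s c P (fun x => x)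
    (fun i x v => Function.update x i v) (fun i z v => rfl) ?_)
  · congr 2
  · intro i z z' v v' he hz
    funext j
    by_cases hj : j = i
    · rw [hj]
      exact hz
    · have := congrFun he j
      simpa [Function.update_of_ne hj] using this

variable {m k b U M N : ℕ} [NeZero b]

omit [NeZero b] in
open Classical in
/-- The masks of level `i` have a short relation with small probability. -/
theorem mask_card (s c : ℕ) (i : Fin k) :
    (univ.filter fun z : Om (E m) k b U × BgM m k U M N =>
      ∃ γ : Fin U → ℤ, (supp γ).card ≤ s ∧ (∀ u, |γ u| ≤ c) ∧ γ ≠ 0 ∧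
        ∑ u, γ u * ((z.2.2.1 i u : ℕ) : ℤ) = 0).card * M ≤
      (U * (2 * c + 1)) ^ s * Fintype.card (Om (E m) k b U × BgM m k U M N) := by
  have h := rel_abs (Z := Om (E m) k b U × BgM m k U M N) (ι := Fin U) s c M
    (fun z => z.2.2.1 i)
    (fun u z v => (z.1, z.2.1, Function.update z.2.2.1 i (Function.update (z.2.2.1 i) u v),
      z.2.2.2)) ?_ ?_
  · rw [Fintype.card_fin] at h
    exact h
  · intro u z v
    simp
  · intro u z z' v v' he hz
    obtain ⟨z1, z2, z3, z4⟩ := z
    obtain ⟨w1, w2, w3, w4⟩ := z'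
    simp only [Prod.mk.injEq] at he hz ⊢
    obtain ⟨e1, e2, e3, e4⟩ := he
    refine ⟨e1, e2, ?_, e4⟩
    funext i'
    by_cases hi : i' = i
    · rw [hi]
      funext u'
      by_cases hu : u' = u
      · rw [hu]
        exact hz
      · have := congrFun (congrFun e3 i) u'
        simpa [Function.update_of_ne hu] using this
    · have := congrFun e3 i'
      simpa [Function.update_of_ne hi] using this

omit [NeZero b] in
open Classical in
/-- The noise has a short relation with small probability. -/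
theorem noise_card (s c : ℕ) :
    (univ.filter fun z : Om (E m) k b U × BgM m k U M N =>
      ∃ γ : E m → ℤ, (supp γ).card ≤ s ∧ (∀ e, |γ e| ≤ c) ∧ γ ≠ 0 ∧
        ∑ e, γ e * ((z.2.2.2 e : ℕ) : ℤ) = 0).card * (N + 1) ≤
      (3 * m ^ 2 * (2 * c + 1)) ^ s * Fintype.card (Om (E m) k b U × BgM m k U M N) := by
  have h := rel_abs (Z := Om (E m) k b U × BgM m k U M N) (ι := E m) s c (N + 1)
    (fun z => z.2.2.2)
    (fun e z v => (z.1, z.2.1, z.2.2.1, Function.update z.2.2.2 e v)) ?_ ?_
  · have hE : Fintype.card (E m) = 3 * m ^ 2 := by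
      simp [E]
      ring
    rw [hE] at h
    exact h
  · intro e z v
    rfl
  · intro e z z' v v' he hz
    obtain ⟨z1, z2, z3, z4⟩ := z
    obtain ⟨w1, w2, w3, w4⟩ := z'
    simp only [Prod.mk.injEq] at he hz ⊢
    obtain ⟨e1, e2, e3, e4⟩ := he
    refine ⟨e1, e2, e3, ?_⟩
    funext e'
    by_cases hi : e' = e
    · rw [hi]
      exact hz
    · have := congrFun e4 e'
      simpa [Function.update_of_ne hi] using this

omit [NeZero b] in
open Classical in
/-- The masks and the noise have no short relation with large probability. -/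
theorem spOK_card {s c : ℕ} (hM : 512 * (k * (U * (2 * c + 1)) ^ s) ≤ M)
    (hN : 512 * (3 * m ^ 2 * (2 * c + 1)) ^ s ≤ N + 1) :
    256 * (univ.filter fun z : Om (E m) k b U × BgM m k U M N => ¬ SpOK s c z.2).card ≤
      Fintype.card (Om (E m) k b U × BgM m k U M N) := by
  set T := Fintype.card (Om (E m) k b U × BgM m k U M N) with hT
  set A1 : Fin k → Finset (Om (E m) k b U × BgM m k U M N) := fun i =>
    univ.filter fun z : Om (E m) k b U × BgM m k U M N =>
      ∃ γ : Fin U → ℤ, (supp γ).card ≤ s ∧ (∀ u, |γ u| ≤ c) ∧ γ ≠ 0 ∧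
        ∑ u, γ u * ((z.2.2.1 i u : ℕ) : ℤ) = 0 with hA1
  set A2 : Finset (Om (E m) k b U × BgM m k U M N) :=
    univ.filter fun z : Om (E m) k b U × BgM m k U M N =>
      ∃ γ : E m → ℤ, (supp γ).card ≤ s ∧ (∀ e, |γ e| ≤ c) ∧ γ ≠ 0 ∧
        ∑ e, γ e * ((z.2.2.2 e : ℕ) : ℤ) = 0 with hA2
  have hsub : (univ.filter fun z : Om (E m) k b U × BgM m k U M N => ¬ SpOK s c z.2) ⊆
      (univ.biUnion A1) ∪ A2 := by
    intro z hz
    have hz' := (mem_filter.1 hz).2
    rw [mem_union]
    by_contra hcon
    push Not at hcon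
    obtain ⟨hc1, hc2⟩ := hcon
    apply hz'
    refine ⟨?_, ?_⟩
    · intro i Γ hs hc hr u
      by_contra hu
      apply hc1
      rw [mem_biUnion]
      refine ⟨i, mem_univ _, mem_filter.2 ⟨mem_univ _, Γ, hs, hc, ?_, hr⟩⟩
      intro h0
      exact hu (congrFun h0 u)
    · intro γ hs hc hex hr
      obtain ⟨e0, he0, hγ0⟩ := hex
      apply hc2
      refine mem_filter.2 ⟨mem_univ _, fun e => if z.2.1 e = true then γ e else 0, ?_, ?_, ?_, ?_⟩
      · refine (card_le_card ?_).trans hs
        intro e he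
        simp only [supp, mem_filter, mem_univ, true_and] at he ⊢
        intro h0
        apply he
        rw [h0]
        simp
      · intro e
        dsimp only
        split_ifs
        · exact hc e
        · simp
      · intro h0
        have := congrFun h0 e0
        simp only [he0, if_true, Pi.zero_apply] at this
        exact hγ0 this
      · refine Eq.trans (sum_congr rfl fun e _ => ?_) hr
        by_cases he : z.2.1 e = true
        · simp only [if_pos he]
        · simp only [if_neg he, zero_mul]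
  have hle : (univ.filter fun z : Om (E m) k b U × BgM m k U M N => ¬ SpOK s c z.2).card ≤
      ∑ i, (A1 i).card + A2.card :=
    (card_le_card hsub).trans ((card_union_le _ _).trans (Nat.add_le_add_right card_biUnion_le _))
  have h2 : 512 * A2.card ≤ T := by
    have := noise_card (m := m) (k := k) (b := b) (U := U) (M := M) (N := N) s c
    rw [← hA2, ← hT] at this
    have h3 : (512 * A2.card) * (N + 1) ≤ T * (N + 1) := by
      calc (512 * A2.card) * (N + 1) = 512 * (A2.card * (N + 1)) := by ring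
        _ ≤ 512 * ((3 * m ^ 2 * (2 * c + 1)) ^ s * T) := Nat.mul_le_mul_left _ this
        _ = 512 * (3 * m ^ 2 * (2 * c + 1)) ^ s * T := by ring
        _ ≤ (N + 1) * T := Nat.mul_le_mul_right _ hN
        _ = T * (N + 1) := by ring
    exact Nat.le_of_mul_le_mul_right h3 (Nat.succ_pos N)
  have h1 : 512 * ∑ i, (A1 i).card ≤ T := by
    rcases Nat.eq_zero_or_pos M with h0 | hpos
    · have hz : ∀ i, A1 i = ∅ := by
        intro i
        rw [hA1]
        refine filter_eq_empty_iff.2 fun z _ => ?_
        rintro ⟨γ, -, -, hγ, -⟩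
        obtain ⟨u, -⟩ : ∃ u, γ u ≠ 0 := by
          by_contra hcon
          push Not at hcon
          exact hγ (funext hcon)
        have := (z.2.2.1 i u).2
        omega
      simp [hz]
    · have h3 : (512 * ∑ i, (A1 i).card) * M ≤ T * M := by
        calc (512 * ∑ i, (A1 i).card) * M = 512 * ∑ i, (A1 i).card * M := by
              rw [← sum_mul]; ring
          _ ≤ 512 * ∑ _i : Fin k, (U * (2 * c + 1)) ^ s * T := by
              refine Nat.mul_le_mul_left _ (sum_le_sum fun i _ => ?_)
              exact mask_card s c i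
          _ = 512 * (k * (U * (2 * c + 1)) ^ s) * T := by
              rw [sum_const, card_univ, Fintype.card_fin, smul_eq_mul]
              ring
          _ ≤ M * T := Nat.mul_le_mul_right _ hM
          _ = T * M := by ring
      exact Nat.le_of_mul_le_mul_right h3 hpos
  omega

end Pool.Agent.Helper21.MX
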