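import Pool.Agent.Helper21.MX.Defs
import Pool.Agent.Helper8.PQ.InstM

/-!
# Averaging with bad sets that depend on the element, and the number of mates
-/

set_option autoImplicit false

namespace Pool.Agent.Helper21.MX

open Finset
open Pool.Agent.Helper22.ETModel Pool.Agent.Helper22.TSModel Pool.Agent.Helper22.EP
open Pool.Agent.Helper23.SP (pre sg Om g put supp Free)
open Pool.Agent.Helper8.PQ

variable {m n k b U M N d a D W R K : ℕ} [NeZero b]

open Classical in
/-- Averaging with a bad set that may depend on the element, and matching probability `1 / 4`. -/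
theorem averagingX {Ω R X : Type} [Fintype Ω] [Fintype R] [Fintype X]
    (ob : Ω → R → Bool) (op : X → Ω → R → Bool) (Mt : X → Ω → Prop) (Rv : Ω → R → Finset X)
    (Bd : X → R → Finset Ω)
    (h1 : ∀ ω, 2 * Fintype.card R ≤ 3 * (univ.filter (fun ρ => ob ω ρ = false)).card)
    (h2 : ∀ x ω, Mt x ω → 2 * Fintype.card R ≤ 3 * (univ.filter (fun ρ => op x ω ρ = true)).card)
    (h3 : ∀ x, Fintype.card Ω ≤ 4 * (univ.filter (fun ω => Mt x ω)).card)
    (h4 : ∀ x ω ρ, Mt x ω → ω ∉ Bd x ρ → ob ω ρ ≠ op x ω ρ → x ∈ Rv ω ρ)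
    (h5 : ∀ x ρ, 48 * (Bd x ρ).card ≤ Fintype.card Ω) :
    Fintype.card X * Fintype.card R * Fintype.card Ω ≤ 16 * ∑ ω, ∑ ρ, (Rv ω ρ).card := by
  -- one element and one basic choice
  have key : ∀ x ω, Mt x ω →
      Fintype.card R ≤ 3 * ((univ.filter (fun ρ => x ∈ Rv ω ρ)).card +
        (univ.filter (fun ρ => ω ∈ Bd x ρ)).card) := by
    intro x ω hM
    have a1 := h1 ω
    have a2 := h2 x ω hM
    have a3 := card_union_add_card_inter (univ.filter (fun ρ => ob ω ρ = false))
      (univ.filter (fun ρ => op x ω ρ = true))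
    have a4 : ((univ.filter (fun ρ => ob ω ρ = false)) ∪
        (univ.filter (fun ρ => op x ω ρ = true))).card ≤ Fintype.card R := card_le_univ _
    have a5 : ((univ.filter (fun ρ => ob ω ρ = false)) ∩
        (univ.filter (fun ρ => op x ω ρ = true))).card ≤
        (univ.filter (fun ρ => x ∈ Rv ω ρ)).card + (univ.filter (fun ρ => ω ∈ Bd x ρ)).card := by
      refine le_trans (card_le_card ?_) (card_union_le _ _)
      intro ρ hρ
      rw [mem_inter, mem_filter, mem_filter] at hρ
      rw [mem_union, mem_filter, mem_filter]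
      by_cases hB : ω ∈ Bd x ρ
      · exact Or.inr ⟨mem_univ _, hB⟩
      · refine Or.inl ⟨mem_univ _, h4 x ω ρ hM hB ?_⟩
        rw [hρ.1.2, hρ.2.2]
        decide
    omega
  -- the bad pairs
  have hbad : ∀ x, 48 * ∑ ω, (univ.filter (fun ρ => ω ∈ Bd x ρ)).card ≤
      Fintype.card R * Fintype.card Ω := by
    intro x
    have e1 : ∑ ω, (univ.filter (fun ρ => ω ∈ Bd x ρ)).card = ∑ ρ, (Bd x ρ).card := by
      have : ∀ ω, (univ.filter (fun ρ => ω ∈ Bd x ρ)).card =
          ∑ ρ, if ω ∈ Bd x ρ then 1 else 0 := fun ω => by rw [card_filter]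
      simp_rw [this]
      rw [sum_comm]
      refine sum_congr rfl fun ρ _ => ?_
      rw [← card_filter, filter_mem_eq_inter, univ_inter]
    rw [e1, mul_sum]
    calc ∑ ρ, 48 * (Bd x ρ).card ≤ ∑ _ρ : R, Fintype.card Ω := sum_le_sum fun ρ _ => h5 x ρ
      _ = Fintype.card R * Fintype.card Ω := by rw [sum_const, smul_eq_mul, card_univ]
  -- one element
  have key2 : ∀ x, Fintype.card R * Fintype.card Ω ≤
      16 * ∑ ω, (univ.filter (fun ρ => x ∈ Rv ω ρ)).card := by
    intro x
    have b3 : (univ.filter (fun ω => Mt x ω)).card * Fintype.card R ≤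
        3 * ∑ ω, (univ.filter (fun ρ => x ∈ Rv ω ρ)).card +
          3 * ∑ ω, (univ.filter (fun ρ => ω ∈ Bd x ρ)).card := by
      calc (univ.filter (fun ω => Mt x ω)).card * Fintype.card R
          = ∑ _ω ∈ univ.filter (fun ω => Mt x ω), Fintype.card R := by
            rw [sum_const, smul_eq_mul]
        _ ≤ ∑ ω ∈ univ.filter (fun ω => Mt x ω),
            3 * ((univ.filter (fun ρ => x ∈ Rv ω ρ)).card +
              (univ.filter (fun ρ => ω ∈ Bd x ρ)).card) := by
            refine sum_le_sum fun ω hω => key x ω (mem_filter.1 hω).2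
        _ ≤ ∑ ω, 3 * ((univ.filter (fun ρ => x ∈ Rv ω ρ)).card +
              (univ.filter (fun ρ => ω ∈ Bd x ρ)).card) :=
            sum_le_sum_of_subset (filter_subset _ _)
        _ = _ := by rw [← mul_sum, sum_add_distrib, mul_add]
    have b4 : Fintype.card R * Fintype.card Ω ≤
        4 * ((univ.filter (fun ω => Mt x ω)).card * Fintype.card R) := by
      calc Fintype.card R * Fintype.card Ω
          ≤ Fintype.card R * (4 * (univ.filter (fun ω => Mt x ω)).card) :=
            Nat.mul_le_mul_left _ (h3 x)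
        _ = _ := by ring
    have b5 := hbad x
    omega
  -- double counting
  have key3 : ∑ x, ∑ ω, (univ.filter (fun ρ => x ∈ Rv ω ρ)).card =
      ∑ ω, ∑ ρ, (Rv ω ρ).card := by
    rw [sum_comm]
    refine sum_congr rfl fun ω _ => ?_
    have : ∀ x, (univ.filter (fun ρ => x ∈ Rv ω ρ)).card =
        ∑ ρ, if x ∈ Rv ω ρ then 1 else 0 := fun x => by rw [card_filter]
    simp_rw [this]
    rw [sum_comm]
    refine sum_congr rfl fun ρ _ => ?_
    rw [← card_filter, filter_mem_eq_inter, univ_inter]
  calc Fintype.card X * Fintype.card R * Fintype.card Ω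
      = ∑ _x : X, Fintype.card R * Fintype.card Ω := by
        rw [sum_const, smul_eq_mul, card_univ, mul_assoc]
    _ ≤ ∑ x, 16 * ∑ ω, (univ.filter (fun ρ => x ∈ Rv ω ρ)).card := sum_le_sum fun x _ => key2 x
    _ = 16 * ∑ ω, ∑ ρ, (Rv ω ρ).card := by rw [← mul_sum, key3]

/-- The digits and marks on one side, the hash functions, masks and noise on the other side. -/
private def mateEqM (m k b U M N : ℕ) :
    (Om (E m) k b U × BgM m k U M N) ≃
      ((E m → Fin k → Fin b) × Bg m k b 1 0) ×
        ((Fin k → (Fin k → Fin b) → Fin U) × (Fin k → Fin U → Fin M) × (E m → Fin (N + 1))) where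
  toFun z := ((z.1.1, (z.2.1, 0, 0)), (z.1.2, z.2.2.1, z.2.2.2))
  invFun w := ((w.1.1, w.2.1), (w.1.2.1, w.2.2.1, w.2.2.2))
  left_inv _ := rfl
  right_inv w := by
    refine Prod.ext (Prod.ext rfl (Prod.ext rfl (Prod.ext ?_ ?_))) rfl
    · exact Subsingleton.elim _ _
    · exact funext fun e => Subsingleton.elim (α := Fin 1) _ _

open Classical in
/-- The element `(0, i, j)` is often not deleted and has a mate that is not deleted. -/
theorem mate_probM (hb : 2 * b ^ k ≤ m) (i j : Fin m) :
    Fintype.card (Om (E m) k b U × BgM m k U M N) ≤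
      4 * (univ.filter fun z : Om (E m) k b U × BgM m k U M N => TM (i, j) z.1 z.2.1).card := by
  have h := mate_prob (k := k) (b := b) (M := 1) (N := 0) hb i j
  have h1 : (univ.filter fun z : Om (E m) k b U × BgM m k U M N => TM (i, j) z.1 z.2.1).card =
      ((univ.filter fun ω : (E m → Fin k → Fin b) × Bg m k b 1 0 =>
        ω.2.1 (0, i, j) = false ∧ ∃ l : Fin m, ω.2.1 (1, j, l) = false ∧
          ω.1 (1, j, l) = ω.1 (0, i, j)) ×ˢ
        (univ : Finset ((Fin k → (Fin k → Fin b) → Fin U) × (Fin k → Fin U → Fin M) ×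
          (E m → Fin (N + 1))))).card := by
    refine Finset.card_equiv (mateEqM m k b U M N) fun z => ?_
    simp [mateEqM, TM]
  have h2 : (univ : Finset (Om (E m) k b U × BgM m k U M N)).card =
      ((univ : Finset ((E m → Fin k → Fin b) × Bg m k b 1 0)) ×ˢ
        (univ : Finset ((Fin k → (Fin k → Fin b) → Fin U) × (Fin k → Fin U → Fin M) ×
          (E m → Fin (N + 1))))).card :=
    Finset.card_equiv (mateEqM m k b U M N) fun z => by simp
  rw [← card_univ, h1, h2, card_product, card_product, ← mul_assoc]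
  refine Nat.mul_le_mul_right _ ?_
  rw [card_univ]
  exact h

end Pool.Agent.Helper21.MX
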