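import Pool.Agent.Helper96.MX.Avg
import Pool.Agent.Helper95.MX.Rv
import Pool.Agent.Helper75.MIX.List
import Pool.Agent.Helper29.MX.RunS
import Pool.Agent.Helper8.MX.Bad
import Pool.Agent.Helper8.PQ.Inst

set_option autoImplicit false

/-!
# The average number of revealed elements
-/

namespace Pool.Agent.Helper21.MX

open Finset
open Pool.Agent.Helper22.ETModel Pool.Agent.Helper22.TSModel Pool.Agent.Helper22.EP
open Pool.Agent.Helper23.SP (pre sg Om g put supp Free)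
open Pool.Agent.Helper8.ZT (pev covp LineOK)
open Pool.Agent.Helper21.DS (cove)
open Pool.Agent.Helper8.PQ
open Pool.Agent.Helper21.MG (SparseForm)

variable {m n k b U M N d a D W R K c : ℕ} [NeZero b]

/-- The average number of revealed elements of type `0` is large. -/
theorem transferM {t s κ B s0 L Y Q H : ℕ} {Λ : ℝ} (h : 3 * m ≤ n) (hm : 1 ≤ m)
    (hb : 2 * b ^ k ≤ m) (hd : 1 ≤ d) (hs : 2 * d * t ≤ s0)
    (hK : 256 * K ≤ 2 ^ t) (hN : 256 * K * d ^ 2 ≤ N + 1) (hM : 256 * K * (4 * s0 * d) ≤ M)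
    (hMf : 512 * (k * (U * (2 * (s * κ) + 1)) ^ s) ≤ M)
    (hNf : 512 * (3 * m ^ 2 * (2 * (s * κ) + 1)) ^ s ≤ N + 1)
    (hL : 2 * N + 2 ≤ L) (hLB : B + s * κ * (2 * N + 1) + 1 ≤ L)
    (hY : M ≤ Y) (hYs : s * κ * M ≤ Y) (hY1 : 1 ≤ Y) (hH : (3 * m ^ 2 + 1) ^ d ≤ H)
    (hΛ : (acC d : ℝ) * H * (L * (Y : ℝ) ^ k) ≤ Λ)
    (hQ : 2 * (acC d : ℝ) * H * Λ ^ d ≤ Q) (hQ1 : 1 ≤ Q)
    (hQs : s * κ * (L * Y ^ k) + B + 1 ≤ Q)
    (h4 : 256 * (2 * (D * (3 * m ^ 2 *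
      ((2 * d * (K + (n ^ 2 * (2 * κ + 1)) ^ s * (2 * B + 1)) + 1) * a)))) ≤ N + 1)
    (hLe : Even L) (hQe : Even Q) (hLQ : L * Y ^ k ≤ Q) (hQn : Q * (N + 1) ≤ n ^ c)
    (A : Alg n D W R (PolQ n d a) SignType) (hA : DecidesC A (polFam n d a) c)
    (hAK : FewM A s κ B K) :
    m ^ 2 * 2 ^ R * Fintype.card (Om (E m) k b U × BgM m k U M N) ≤
      16 * ∑ z : Om (E m) k b U × BgM m k U M N, ∑ ρ : Fin R → Bool,
        (rvM A h s κ B s0 L Y Q Λ z ρ).card := by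
  classical
  choose F F' hFd hFd' hF hF' using fun ρ => few_list hAK hd (flagOf h) ρ
  have key := averagingX (Ω := Om (E m) k b U × BgM m k U M N) (R := Fin R → Bool)
    (X := Fin m × Fin m)
    (fun z ρ => A.output (polFam n d a) (ins h (vl L Y Q z.1.1 (cmp z.1.2 z.2))) ρ)
    (fun p z ρ => A.output (polFam n d a)
      (ins h (plv L Y Q z.1.1 (cmp z.1.2 z.2) (0, p.1, p.2) (1, p.2, mte p z.1 z.2.1))) ρ)
    (fun p z => TM p z.1 z.2.1)
    (fun z ρ => rvM A h s κ B s0 L Y Q Λ z ρ)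
    (fun p ρ => BadM A h (F ρ) (F' ρ) s κ s0 L Y Q Λ ρ p) ?_ ?_ ?_ ?_ ?_
  · rw [Fintype.card_prod (Fin m) (Fin m), Fintype.card_fin, Fintype.card_fun, Fintype.card_bool,
      Fintype.card_fin, ← sq] at key
    exact key
  · intro z
    have g1 := hA (ins h (vl L Y Q z.1.1 (cmp z.1.2 z.2)))
      (ins_valid hm hL hY hQ1 hLQ hQn h z.1.1 (cmp z.1.2 z.2))
    rw [Fintype.card_fun, Fintype.card_bool, Fintype.card_fin]
    refine g1.trans (Nat.mul_le_mul_left _ (card_le_card ?_))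
    intro ρ hρ
    rw [mem_filter] at hρ ⊢
    refine ⟨mem_univ _, ?_⟩
    have g2 := base_no h hLe hQe z.1.1 (cmp z.1.2 z.2) (Y := Y)
    have g3 : ¬ (A.output (polFam n d a) (ins h (vl L Y Q z.1.1 (cmp z.1.2 z.2))) ρ = true) :=
      fun hh => g2 (hρ.2.1 hh)
    simpa using g3
  · rintro p z _
    have g1 := hA (ins h (plv L Y Q z.1.1 (cmp z.1.2 z.2) (0, p.1, p.2)
        (1, p.2, mte p z.1 z.2.1)))
      (plant_valid hm hL hY hQ1 hLQ hQn h z.1.1 (cmp z.1.2 z.2) _ _)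
    rw [Fintype.card_fun, Fintype.card_bool, Fintype.card_fin]
    refine g1.trans (Nat.mul_le_mul_left _ (card_le_card ?_))
    intro ρ hρ
    rw [mem_filter] at hρ ⊢
    exact ⟨mem_univ _, hρ.2.2 (plant_yes h L Y Q z.1.1 (cmp z.1.2 z.2) p.1 p.2
      (mte p z.1 z.2.1))⟩
  · rintro ⟨i, j⟩
    convert mate_probM (U := U) (M := M) (N := N) hb i j
  · rintro ⟨i, j⟩ z ρ hMt hB hne
    exact mem_filter.2 ⟨mem_univ _, output_plantM h A ρ (F ρ) (F' ρ) (hF ρ) (hF' ρ)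
      (i := i) (j := j) (ω := z.1) (lam := z.2) hB hLB hL hY hYs hQs hMt hne⟩
  · intro p ρ
    exact badM_card A h (F ρ) (F' ρ) (hFd ρ) (hFd' ρ) hd hs hK hN hM hMf hNf hL hY hY1 hH hΛ hQ
      hQ1 h4 ρ p

end Pool.Agent.Helper21.MX
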